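import Pool.Agent.H26.KF.MCb

/-! Module MC: many integer matrices whose eigenlines have bounded angles. -/

set_option autoImplicit false

open Filter Topology

namespace Pool.Agent.H26.KF

open _root_.KF

theorem exists_interval (p q r : ℝ) (hq : 0 < q) (h : q ≤ r) :
    ∃ I : Finset ℤ, (∀ a ∈ I, |p + a * q| ≤ r) ∧ r / q ≤ I.card := by
  refine ⟨Finset.Icc ⌈(-r - p) / q⌉ ⌊(r - p) / q⌋, ?_, ?_⟩
  · intro a ha
    rw [Finset.mem_Icc, Int.ceil_le, Int.le_floor, div_le_iff₀ hq, le_div_iff₀ hq] at ha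
    exact abs_le.mpr ⟨by linarith [ha.1], by linarith [ha.2]⟩
  · rw [Int.card_Icc]
    have h1 := Int.self_le_toNat (⌊(r - p) / q⌋ + 1 - ⌈(-r - p) / q⌉)
    have h2 : ((⌊(r - p) / q⌋ + 1 - ⌈(-r - p) / q⌉ : ℤ) : ℝ) ≤
        (((⌊(r - p) / q⌋ + 1 - ⌈(-r - p) / q⌉).toNat : ℕ) : ℝ) := by exact_mod_cast h1
    refine le_trans ?_ h2
    push_cast
    have h3 := Int.sub_one_lt_floor ((r - p) / q)
    have h4 := Int.ceil_lt_add_one ((-r - p) / q)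
    have h5 : 1 ≤ r / q := by rw [le_div_iff₀ hq]; linarith
    have h6 : (r - p) / q - (-r - p) / q = 2 * (r / q) := by ring
    linarith

theorem triples (A B x y z k β1 β2 β3 : ℝ) (hA : 1 ≤ A) (hB : 1 ≤ B) (hAk : A ^ 2 ≤ k)
    (hBk : B ^ 2 ≤ k) (hx : k ≤ x) (hy : k ≤ y) (hz : k ≤ z) :
    ∃ W : Finset (Σ _ : ℤ × ℤ, ℤ), (∀ e ∈ W, |x * β1 + e.1.1 * A ^ 2| ≤ x * B ∧
      |y * β2 + e.1.2 * B ^ 2| ≤ y * A ∧
      |y * z * β3 + e.1.2 * z * β1 + (y * e.2 + e.1.2 * e.1.1) * A ^ 2| ≤ y * z * A / B) ∧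
      k ^ 3 / (A ^ 2 * B ^ 2) ≤ W.card := by
  have hk1 : 1 ≤ k := le_trans (by nlinarith) hAk
  have hk0 : 0 < k := by linarith
  have hx0 : 0 < x := by linarith
  have hy0 : 0 < y := by linarith
  have hz0 : 0 < z := by linarith
  have hA0 : 0 < A := by linarith
  have hB0 : 0 < B := by linarith
  obtain ⟨I, hI1, hI2⟩ := exists_interval (x * β1) (A ^ 2) (x * B) (by positivity)
    (by nlinarith)
  obtain ⟨J, hJ1, hJ2⟩ := exists_interval (y * β2) (B ^ 2) (y * A) (by positivity)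
    (by nlinarith)
  have hH : ∀ ac : ℤ × ℤ, ∃ H : Finset ℤ,
      (∀ b ∈ H, |(y * z * β3 + ac.2 * z * β1 + ac.2 * ac.1 * A ^ 2) + b * (y * A ^ 2)| ≤
        y * z * A / B) ∧ y * z * A / B / (y * A ^ 2) ≤ H.card := by
    intro ac
    refine exists_interval _ (y * A ^ 2) _ (by positivity) ?_
    rw [le_div_iff₀ hB0]
    have hAB : A * B ≤ z := by nlinarith [sq_nonneg (A - B)]
    calc y * A ^ 2 * B = (y * A) * (A * B) := by ring
      _ ≤ (y * A) * z := by gcongr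
      _ = _ := by ring
  choose H hH1 hH2 using hH
  refine ⟨(I ×ˢ J).sigma H, ?_, ?_⟩
  · rintro ⟨⟨a, c⟩, b⟩ he
    rw [Finset.mem_sigma, Finset.mem_product] at he
    refine ⟨hI1 a he.1.1, hJ1 c he.1.2, ?_⟩
    have := hH1 (a, c) b he.2
    refine le_trans (le_of_eq ?_) this
    congr 1
    simp only
    ring
  · rw [Finset.card_sigma]
    push_cast
    have h1 : ∀ ac ∈ I ×ˢ J, k / (A * B) ≤ ((H ac).card : ℝ) := by
      intro ac _
      refine le_trans ?_ (hH2 ac)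
      have : y * z * A / B / (y * A ^ 2) = z / (A * B) := by field_simp
      rw [this]
      gcongr
    calc k ^ 3 / (A ^ 2 * B ^ 2) = (k * B / A ^ 2) * (k * A / B ^ 2) * (k / (A * B)) := by
          field_simp
      _ ≤ (x * B / A ^ 2) * (y * A / B ^ 2) * (k / (A * B)) := by gcongr
      _ ≤ (I.card : ℝ) * J.card * (k / (A * B)) := by gcongr
      _ = ∑ _ac ∈ I ×ˢ J, k / (A * B) := by
          rw [Finset.sum_const, Finset.card_product, nsmul_eq_mul]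
          push_cast
          ring
      _ ≤ _ := Finset.sum_le_sum h1

/-- the matrix `diag(1, -1, 1)` -/
def del : GZ where
  val := Matrix.diagonal ![1, -1, 1]
  inv := Matrix.diagonal ![1, -1, 1]
  val_inv := by
    rw [Matrix.diagonal_mul_diagonal, ← Matrix.diagonal_one]
    congr 1
    funext i
    fin_cases i <;> simp
  inv_val := by
    rw [Matrix.diagonal_mul_diagonal, ← Matrix.diagonal_one]
    congr 1
    funext i
    fin_cases i <;> simp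

theorem exists_gamma (v w : VZ) (hv : Prim v) (hw : Prim w) (h : dotZ w v = 0) :
    ∃ γ : GZ, mulZ γ v = ![1, 0, 0] ∧ (fun j => (γ : MZ) 2 j) = w ∧
      Matrix.det (γ : MZ) = 1 := by
  obtain ⟨γ, h1, h2⟩ := KFL.AB v w hv hw h
  have hu := (Matrix.isUnit_iff_isUnit_det _).1 γ.isUnit
  rcases Int.isUnit_iff.mp hu with h3 | h3
  · exact ⟨γ, h1, h2, h3⟩
  · refine ⟨del * γ, ?_, ?_, ?_⟩
    · rw [mulZ_mul, h1]
      funext i
      fin_cases i <;> simp [mulZ, del, Matrix.mulVec, dotProduct,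
        Matrix.diagonal_apply]
    · rw [← h2]
      funext j
      rw [Units.val_mul]
      have : (del : MZ) = Matrix.diagonal ![1, -1, 1] := rfl
      rw [this, Matrix.diagonal_mul]
      simp
    · rw [Units.val_mul, Matrix.det_mul, h3]
      have : (del : MZ) = Matrix.diagonal ![1, -1, 1] := rfl
      rw [this, Matrix.det_diagonal, Fin.prod_univ_three]
      simp

theorem exists_image_card {α β : Type*} [DecidableEq β] (S : Finset α) (P : α → β → Prop)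
    (h : ∀ x ∈ S, ∃ y, P x y) (hinj : ∀ x ∈ S, ∀ x' ∈ S, ∀ y, P x y → P x' y → x = x') :
    ∃ s : Finset β, (∀ y ∈ s, ∃ x ∈ S, P x y) ∧ S.card = s.card := by
  classical
  choose f hf using h
  refine ⟨S.attach.image (fun x => f x.1 x.2), ?_, ?_⟩
  · intro y hy
    rw [Finset.mem_image] at hy
    obtain ⟨x, _, rfl⟩ := hy
    exact ⟨x.1, x.2, hf x.1 x.2⟩
  · rw [Finset.card_image_of_injective, Finset.card_attach]
    intro x x' hxx
    apply Subtype.ext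
    refine hinj x.1 x.2 x'.1 x'.2 (f x.1 x.2) (hf _ _) ?_
    have hxx' : f x.1 x.2 = f x'.1 x'.2 := hxx
    rw [hxx']
    exact hf _ _

/-- the eigenvalues used -/
noncomputable def Lk (k : ℕ) : Finset (Fin 3 → ℤ) :=
  Fintype.piFinset (fun i => Finset.Icc ((![-3 * (k : ℤ), 0, 2 * k] : Fin 3 → ℤ) i)
    ((![-3 * (k : ℤ), 0, 2 * k] : Fin 3 → ℤ) i + k))

theorem mem_Lk {k : ℕ} {l : Fin 3 → ℤ} (h : l ∈ Lk k) : (-3 * (k : ℤ) ≤ l 0 ∧ l 0 ≤ -2 * k) ∧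
    (0 ≤ l 1 ∧ l 1 ≤ k) ∧ (2 * (k : ℤ) ≤ l 2 ∧ l 2 ≤ 3 * k) := by
  rw [Lk, Fintype.mem_piFinset] at h
  have h0 := h 0
  have h1 := h 1
  have h2 := h 2
  simp only [Matrix.cons_val_zero, Matrix.cons_val_one, Matrix.cons_val, Finset.mem_Icc] at h0 h1 h2
  omega

theorem card_Lk (k : ℕ) : (Lk k).card = (k + 1) ^ 3 := by
  rw [Lk, Fintype.card_piFinset]
  simp only [Int.card_Icc]
  have : ∀ i : Fin 3, ((![-3 * (k : ℤ), 0, 2 * k] : Fin 3 → ℤ) i + k + 1 -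
      (![-3 * (k : ℤ), 0, 2 * k] : Fin 3 → ℤ) i).toNat = k + 1 := by
    intro i
    omega
  simp only [this, Finset.prod_const, Finset.card_univ, Fintype.card_fin]

theorem many (k : ℕ) (hk : 1 ≤ k) (t : Finset (VZ × VZ))
    (ht : ∀ z ∈ t, Prim z.1 ∧ Prim z.2 ∧ dotZ z.2 z.1 = 0 ∧ nz z.1 ≤ Real.sqrt k ∧
      nz z.2 ≤ Real.sqrt k) :
    ∃ s : Finset Frame, (∀ φ ∈ s, φ.EvLe (3 * k) ∧ φ.Ang (1 / 3)) ∧
      (k : ℝ) ^ 6 * ∑ z ∈ t, 1 / (nz z.1 ^ 2 * nz z.2 ^ 2) ≤ s.card := by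
  classical
  have hkR : (1 : ℝ) ≤ k := by exact_mod_cast hk
  have hγ : ∀ z ∈ t, ∃ γ : GZ, mulZ γ z.1 = ![1, 0, 0] ∧ (fun j => (γ : MZ) 2 j) = z.2 ∧
      Matrix.det (γ : MZ) = 1 := fun z hz =>
    exists_gamma z.1 z.2 (ht z hz).1 (ht z hz).2.1 (ht z hz).2.2.1
  choose! γ hγ using hγ
  have hne : ∀ {x : VZ}, Prim x → x ≠ 0 := by
    intro x hx h
    have := hx 2 (by intro j; rw [h]; simp)
    rw [Int.isUnit_iff] at this
    omega
  have hW : ∀ zl ∈ t ×ˢ Lk k, ∃ W : Finset (Σ _ : ℤ × ℤ, ℤ), (∀ e ∈ W,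
      |((zl.2 1 - zl.2 0 : ℤ) : ℝ) * dt (cst (bcol (γ zl.1) 1)) (cst zl.1.1) +
        e.1.1 * nz zl.1.1 ^ 2| ≤ ((zl.2 1 - zl.2 0 : ℤ) : ℝ) * nz zl.1.2 ∧
      |((zl.2 2 - zl.2 1 : ℤ) : ℝ) * dt (cst (bcol (γ zl.1) 2)) (cr (cst zl.1.2) (cst zl.1.1)) +
        e.1.2 * nz zl.1.2 ^ 2| ≤ ((zl.2 2 - zl.2 1 : ℤ) : ℝ) * nz zl.1.1 ∧
      |((zl.2 2 - zl.2 1 : ℤ) : ℝ) * ((zl.2 2 - zl.2 0 : ℤ) : ℝ) *
          dt (cst (bcol (γ zl.1) 2)) (cst zl.1.1) +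
        e.1.2 * ((zl.2 2 - zl.2 0 : ℤ) : ℝ) * dt (cst (bcol (γ zl.1) 1)) (cst zl.1.1) +
        (((zl.2 2 - zl.2 1 : ℤ) : ℝ) * e.2 + e.1.2 * e.1.1) * nz zl.1.1 ^ 2| ≤
        ((zl.2 2 - zl.2 1 : ℤ) : ℝ) * ((zl.2 2 - zl.2 0 : ℤ) : ℝ) * nz zl.1.1 / nz zl.1.2) ∧
      (k : ℝ) ^ 3 / (nz zl.1.1 ^ 2 * nz zl.1.2 ^ 2) ≤ W.card := by
    intro zl hzl
    rw [Finset.mem_product] at hzl
    obtain ⟨p1, p2, p3, p4, p5⟩ := ht _ hzl.1
    obtain ⟨q0, q1, q2⟩ := mem_Lk hzl.2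
    have hs : ∀ x : ℝ, 0 ≤ x → x ≤ Real.sqrt k → x ^ 2 ≤ (k : ℝ) := by
      intro x hx h
      calc x ^ 2 ≤ Real.sqrt k ^ 2 := by gcongr
        _ = (k : ℝ) := Real.sq_sqrt (by linarith)
    refine triples (nz zl.1.1) (nz zl.1.2) _ _ _ k _ _ _ (KFL.one_le_nz (hne p1))
      (KFL.one_le_nz (hne p2)) (hs _ (KFL.nz_nonneg _) p4) (hs _ (KFL.nz_nonneg _) p5) ?_ ?_ ?_
    · have : (k : ℤ) ≤ zl.2 1 - zl.2 0 := by omega
      exact_mod_cast this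
    · have : (k : ℤ) ≤ zl.2 2 - zl.2 1 := by omega
      exact_mod_cast this
    · have : (k : ℤ) ≤ zl.2 2 - zl.2 0 := by omega
      exact_mod_cast this
  choose! W hW1 hW2 using hW
  set S : Finset (Σ _ : (VZ × VZ) × (Fin 3 → ℤ), Σ _ : ℤ × ℤ, ℤ) :=
    (t ×ˢ Lk k).sigma (fun zl => W zl) with hS
  have hP1 : ∀ i ∈ S, ∃ φ : Frame, φ.ev = i.1.2 ∧ φ.v 0 = i.1.1.1 ∧ φ.w = i.1.1.2 ∧
      conjZ (γ i.1.1) φ.M = tri i.1.2 i.2.1.1 i.2.1.2 i.2.2 ∧ φ.Ang (1 / 3) := by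
    intro i hi
    rw [hS, Finset.mem_sigma] at hi
    have hi1 := Finset.mem_product.mp hi.1
    obtain ⟨p1, p2, p3, p4, p5⟩ := ht _ hi1.1
    obtain ⟨q0, q1, q2⟩ := mem_Lk hi1.2
    obtain ⟨g1, g2, g3⟩ := hγ _ hi1.1
    obtain ⟨e1, e2, e3⟩ := hW1 i.1 hi.1 i.2 hi.2
    exact frame_of (γ i.1.1) i.1.1.1 i.1.1.2 p2 g1 g2 g3 i.1.2 (by omega) (by omega)
      i.2.1.1 i.2.1.2 i.2.2 e1 e2 e3
  have hP2 : ∀ i ∈ S, ∀ i' ∈ S, ∀ φ : Frame, (φ.ev = i.1.2 ∧ φ.v 0 = i.1.1.1 ∧ φ.w = i.1.1.2 ∧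
      conjZ (γ i.1.1) φ.M = tri i.1.2 i.2.1.1 i.2.1.2 i.2.2 ∧ φ.Ang (1 / 3)) →
      (φ.ev = i'.1.2 ∧ φ.v 0 = i'.1.1.1 ∧ φ.w = i'.1.1.2 ∧
      conjZ (γ i'.1.1) φ.M = tri i'.1.2 i'.2.1.1 i'.2.1.2 i'.2.2 ∧ φ.Ang (1 / 3)) → i = i' := by
    rintro ⟨⟨⟨v, w⟩, l⟩, ⟨⟨a, c⟩, b⟩⟩ _ ⟨⟨⟨v', w'⟩, l'⟩, ⟨⟨a', c'⟩, b'⟩⟩ _ φ ⟨h1, h2, h3, h4, _⟩
      ⟨h1', h2', h3', h4', _⟩
    simp only at h1 h2 h3 h4 h1' h2' h3' h4'
    have e1 : l = l' := h1.symm.trans h1'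
    have e2 : v = v' := h2.symm.trans h2'
    have e3 : w = w' := h3.symm.trans h3'
    subst e1 e2 e3
    have e4 := h4.symm.trans h4'
    have ha : a = a' := by
      have := congrFun (congrFun e4 0) 1
      simpa [tri] using this
    have hc : c = c' := by
      have := congrFun (congrFun e4 1) 2
      simpa [tri] using this
    have hb : b = b' := by
      have := congrFun (congrFun e4 0) 2
      simpa [tri] using this
    subst ha hc hb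
    rfl
  obtain ⟨s, hs1, hs2⟩ := exists_image_card S _ hP1 hP2
  refine ⟨s, ?_, ?_⟩
  · intro φ hφ
    obtain ⟨i, hi, h1, _, _, _, h5⟩ := hs1 φ hφ
    rw [hS, Finset.mem_sigma, Finset.mem_product] at hi
    obtain ⟨q0, q1, q2⟩ := mem_Lk hi.1.2
    refine ⟨?_, h5⟩
    intro j
    rw [h1, abs_le]
    push_cast
    fin_cases j
    · exact ⟨by simpa using q0.1, by simp only [Fin.zero_eta]; omega⟩
    · exact ⟨by simp only [Fin.mk_one]; omega, by simp only [Fin.mk_one]; omega⟩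
    · have e2 : (⟨2, by norm_num⟩ : Fin 3) = 2 := rfl
      exact ⟨by simp only [e2]; omega, by simp only [e2]; omega⟩
  · rw [← hs2, hS, Finset.card_sigma]
    push_cast
    calc (k : ℝ) ^ 6 * ∑ z ∈ t, 1 / (nz z.1 ^ 2 * nz z.2 ^ 2)
        ≤ ((k + 1 : ℝ) ^ 3 * k ^ 3) * ∑ z ∈ t, 1 / (nz z.1 ^ 2 * nz z.2 ^ 2) := by
          have h0 : 0 ≤ ∑ z ∈ t, 1 / (nz z.1 ^ 2 * nz z.2 ^ 2) :=
            Finset.sum_nonneg fun z _ => by positivity
          have : (k : ℝ) ^ 6 ≤ (k + 1 : ℝ) ^ 3 * k ^ 3 := by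
            calc (k : ℝ) ^ 6 = k ^ 3 * k ^ 3 := by ring
              _ ≤ _ := by gcongr; linarith
          gcongr
      _ = ∑ z ∈ t, ∑ _l ∈ Lk k, (k : ℝ) ^ 3 / (nz z.1 ^ 2 * nz z.2 ^ 2) := by
          rw [Finset.mul_sum]
          refine Finset.sum_congr rfl fun z _ => ?_
          rw [Finset.sum_const, card_Lk, nsmul_eq_mul]
          push_cast
          ring
      _ = ∑ zl ∈ t ×ˢ Lk k, (k : ℝ) ^ 3 / (nz zl.1.1 ^ 2 * nz zl.1.2 ^ 2) := by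
          rw [Finset.sum_product]
      _ ≤ _ := Finset.sum_le_sum fun zl hzl => hW2 zl hzl

theorem mc (hFL : T_FL) : T_MC := by
  obtain ⟨c, X0, hc, hFL⟩ := hFL
  obtain ⟨C, hC⟩ := KFL.EV2 (1 / 3) (by norm_num)
  obtain ⟨N0, hN0⟩ := exists_nat_ge (9 * C)
  set N : ℕ := N0 + 1 with hN
  have hN1 : (1 : ℝ) ≤ N := by
    have : 1 ≤ N := by omega
    exact_mod_cast this
  have hNC : 9 * C ≤ N := by
    rw [hN]; push_cast; linarith
  have hN0' : (0 : ℝ) < N := by linarith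
  refine ⟨1 / 3, c / (16 * (6 * N) ^ 6), by norm_num, by positivity, ?_⟩
  obtain ⟨M0, hM0⟩ := exists_nat_ge (6 * N * X0 ^ 2)
  filter_upwards [eventually_ge_atTop ((6 * N) ^ 2), eventually_ge_atTop M0] with m hm1 hm2
  set k : ℕ := m / (3 * N) with hk
  have hmR : ((6 : ℝ) * N) ^ 2 ≤ m := by exact_mod_cast hm1
  have hm0 : (0 : ℝ) < m := lt_of_lt_of_le (by positivity) hmR
  have hkm : 3 * N * k ≤ m := Nat.mul_div_le m (3 * N)
  have hkmR : 3 * (N : ℝ) * k ≤ m := by exact_mod_cast hkm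
  have hmk : (m : ℝ) / (6 * N) ≤ k := by
    have h1 : m < 3 * N * (k + 1) := by
      have := Nat.lt_mul_div_succ m (by positivity : 0 < 3 * N)
      exact this
    have h1R : (m : ℝ) < 3 * N * (k + 1) := by exact_mod_cast h1
    have h2 : (6 : ℝ) * N ≤ m := by nlinarith
    rw [div_le_iff₀ (by positivity)]
    nlinarith
  have h6 : (6 : ℝ) * N ≤ m / (6 * N) := by
    rw [le_div_iff₀ (by positivity)]
    nlinarith
  have hk1R : (1 : ℝ) ≤ k := by linarith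
  have hk1 : 1 ≤ k := by exact_mod_cast hk1R
  have hX0 : X0 ≤ Real.sqrt k := by
    have h1 : X0 ^ 2 ≤ k := by
      refine le_trans ?_ hmk
      rw [le_div_iff₀ (by positivity)]
      have : (M0 : ℝ) ≤ m := by exact_mod_cast hm2
      nlinarith
    exact Real.le_sqrt_of_sq_le h1
  obtain ⟨t, ht1, ht2⟩ := hFL (Real.sqrt k) hX0
  obtain ⟨s, hs1, hs2⟩ := many k hk1 t ht1
  refine ⟨s, ?_, ?_⟩
  · intro φ hφ
    obtain ⟨hE, hA⟩ := hs1 φ hφ
    refine ⟨?_, hA⟩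
    have h1 := hC (3 * k) φ (by omega) hA hE
    have h2 : ((l1 (n := 2) φ.M : ℕ) : ℝ) ≤ m := by
      have h3 : ∀ i j : Fin 3, (((φ.M i j).natAbs : ℕ) : ℝ) ≤ C * (3 * k) := by
        intro i j
        have := h1 i j
        rw [Nat.cast_natAbs, Int.cast_abs]
        push_cast at this
        exact this
      have h4 : ((l1 (n := 2) φ.M : ℕ) : ℝ) ≤ 9 * C * (3 * k) := by
        unfold l1
        push_cast
        calc ∑ i : Fin 3, ∑ j : Fin 3, (((φ.M i j).natAbs : ℕ) : ℝ) ≤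
              ∑ _i : Fin 3, ∑ _j : Fin 3, C * (3 * k) :=
              Finset.sum_le_sum fun i _ => Finset.sum_le_sum fun j _ => h3 i j
          _ = 9 * C * (3 * k) := by
              simp only [Finset.sum_const, Finset.card_univ, Fintype.card_fin]
              simp only [nsmul_eq_mul]
              push_cast
              ring
      calc ((l1 (n := 2) φ.M : ℕ) : ℝ) ≤ 9 * C * (3 * k) := h4
        _ ≤ N * (3 * k) := by gcongr
        _ = 3 * N * k := by ring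
        _ ≤ m := hkmR
    exact_mod_cast h2
  · have hlog : Real.log m / 2 ≤ Real.log k := by
      have h1 : Real.sqrt m ≤ k := by
        refine le_trans ?_ hmk
        rw [le_div_iff₀ (by positivity)]
        have h2 : 6 * (N : ℝ) ≤ Real.sqrt m := Real.le_sqrt_of_sq_le hmR
        calc Real.sqrt m * (6 * N) ≤ Real.sqrt m * Real.sqrt m := by gcongr
          _ = m := Real.mul_self_sqrt hm0.le
      calc Real.log m / 2 = Real.log (Real.sqrt m) := by rw [Real.log_sqrt hm0.le]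
        _ ≤ Real.log k := Real.log_le_log (Real.sqrt_pos.mpr hm0) h1
    have hm1' : (1 : ℝ) ≤ m := by nlinarith
    have hlogm : 0 ≤ Real.log m := Real.log_nonneg hm1'
    have hls : Real.log (Real.sqrt k) = Real.log k / 2 := Real.log_sqrt (by linarith)
    rw [hls] at ht2
    calc c / (16 * (6 * N) ^ 6) * (m : ℝ) ^ 6 * Real.log m ^ 2
        = (m / (6 * N)) ^ 6 * (c * ((Real.log m / 2) / 2) ^ 2) := by
          field_simp
          ring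
      _ ≤ (k : ℝ) ^ 6 * (c * (Real.log k / 2) ^ 2) := by gcongr
      _ ≤ (k : ℝ) ^ 6 * ∑ z ∈ t, 1 / (nz z.1 ^ 2 * nz z.2 ^ 2) := by gcongr
      _ ≤ s.card := hs2

end Pool.Agent.H26.KF
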