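import Pool.Agent.H26.KF.Count
import Pool.Agent.H22.KF.Targets

/-! Module PC: the pair count for triangular matrices. -/

set_option autoImplicit false

namespace Pool.Agent.H26.KF

open _root_.KF

/-- one fibre: the six parameters `a, a', c, c', b, b'` for fixed diagonals -/
theorem fibre_count (m : ℕ) (l l' : Fin 3 → ℤ) (h10 : l 1 - l 0 ≠ 0) (h21 : l 2 - l 1 ≠ 0)
    (h20 : l 2 - l 0 ≠ 0) (h10' : l' 1 - l' 0 ≠ 0) (h21' : l' 2 - l' 1 ≠ 0)
    (h20' : l' 2 - l' 0 ≠ 0) (hl : ∀ i, |l i| ≤ (m : ℤ)) (hl' : ∀ i, |l' i| ≤ (m : ℤ))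
    (d1 d2 d3 : ℝ) (hd1 : 0 ≤ d1) (hd2 : 0 ≤ d2) (hd3 : 0 ≤ d3) (s : Finset (Tup × Tup))
    (h : ∀ t ∈ s, t.1.l = l ∧ t.2.l = l' ∧ t.1.Red ∧
      |t.2.u01 - t.1.u01| ≤ d1 ∧ |t.2.u12 - t.1.u12| ≤ d2 ∧
      |t.2.u02 - t.1.u02 - t.1.u01 * (t.2.u12 - t.1.u12)| ≤ d3) :
    (s.card : ℝ) ≤ (8 * m ^ 2 * d1 + (Int.gcd (l 1 - l 0) (l' 1 - l' 0) : ℝ)) *
      ((8 * m ^ 2 * d2 + (Int.gcd (l 2 - l 1) (l' 2 - l' 1) : ℝ)) *
        (8 * m ^ 2 * d3 + (Int.gcd (l 2 - l 0) (l' 2 - l' 0) : ℝ))) := by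
  classical
  have hdiff : ∀ i j, |((l i - l j : ℤ) : ℝ)| ≤ 2 * m := by
    intro i j
    have h1 := abs_le.mp (hl i)
    have h2 := abs_le.mp (hl j)
    have : |l i - l j| ≤ 2 * (m : ℤ) := abs_le.mpr ⟨by linarith [h1.1, h2.2], by linarith [h1.2, h2.1]⟩
    have h3 : ((|l i - l j| : ℤ) : ℝ) ≤ ((2 * (m : ℤ) : ℤ) : ℝ) := by exact_mod_cast this
    rw [Int.cast_abs] at h3
    push_cast at h3 ⊢
    exact h3
  have hdiff' : ∀ i j, |((l' i - l' j : ℤ) : ℝ)| ≤ 2 * m := by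
    intro i j
    have h1 := abs_le.mp (hl' i)
    have h2 := abs_le.mp (hl' j)
    have : |l' i - l' j| ≤ 2 * (m : ℤ) :=
      abs_le.mpr ⟨by linarith [h1.1, h2.2], by linarith [h1.2, h2.1]⟩
    have h3 : ((|l' i - l' j| : ℤ) : ℝ) ≤ ((2 * (m : ℤ) : ℤ) : ℝ) := by exact_mod_cast this
    rw [Int.cast_abs] at h3
    push_cast at h3 ⊢
    exact h3
  have hmul : ∀ (i j i' j' : Fin 3) (d e : ℝ), 0 ≤ d → |e| ≤ d →
      |e * (((l i - l j : ℤ) : ℝ) * ((l' i' - l' j' : ℤ) : ℝ))| ≤ 4 * m ^ 2 * d := by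
    intro i j i' j' d e hd he
    rw [abs_mul, abs_mul]
    have h1 := hdiff i j
    have h2 := hdiff' i' j'
    calc |e| * (|((l i - l j : ℤ) : ℝ)| * |((l' i' - l' j' : ℤ) : ℝ)|)
        ≤ d * ((2 * m) * (2 * m)) := by gcongr
      _ = _ := by ring
  have r10 : ((l 1 - l 0 : ℤ) : ℝ) ≠ 0 := by exact_mod_cast h10
  have r21 : ((l 2 - l 1 : ℤ) : ℝ) ≠ 0 := by exact_mod_cast h21
  have r20 : ((l 2 - l 0 : ℤ) : ℝ) ≠ 0 := by exact_mod_cast h20
  have r10' : ((l' 1 - l' 0 : ℤ) : ℝ) ≠ 0 := by exact_mod_cast h10'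
  have r21' : ((l' 2 - l' 1 : ℤ) : ℝ) ≠ 0 := by exact_mod_cast h21'
  have r20' : ((l' 2 - l' 0 : ℤ) : ℝ) ≠ 0 := by exact_mod_cast h20'
  refine card_image_mul s (fun t => (t.1.a, t.2.a)) _ _ (by positivity) ?_ ?_
  · -- a, a'
    have := pair_count (l 1 - l 0) (l' 1 - l' 0) h10 (4 * m ^ 2 * d1) 0 (by positivity)
      (s.image (fun t => (t.1.a, t.2.a))) ?_
    · calc _ ≤ _ := this
        _ = _ := by ring
    · intro p hp
      rw [Finset.mem_image] at hp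
      obtain ⟨t, ht, rfl⟩ := hp
      obtain ⟨e1, e2, hR, hu, _, _⟩ := h t ht
      have hR1 := hR.1
      rw [e1] at hR1
      refine ⟨hR1.1, hR1.2, ?_⟩
      have := hmul 1 0 1 0 d1 _ hd1 hu
      refine le_trans (le_of_eq ?_) this
      congr 1
      unfold Tup.u01
      rw [e1, e2]
      field_simp
      ring
  intro aa
  refine card_image_mul _ (fun t => (t.1.c, t.2.c)) _ _ (by positivity) ?_ ?_
  · -- c, c'
    have := pair_count (l 2 - l 1) (l' 2 - l' 1) h21 (4 * m ^ 2 * d2) 0 (by positivity)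
      ((s.filter (fun t => (t.1.a, t.2.a) = aa)).image (fun t => (t.1.c, t.2.c))) ?_
    · calc _ ≤ _ := this
        _ = _ := by ring
    · intro p hp
      rw [Finset.mem_image] at hp
      obtain ⟨t, ht, rfl⟩ := hp
      obtain ⟨e1, e2, hR, _, hu, _⟩ := h t (Finset.mem_filter.mp ht).1
      have hR1 := hR.2.1
      rw [e1] at hR1
      refine ⟨hR1.1, hR1.2, ?_⟩
      have := hmul 2 1 2 1 d2 _ hd2 hu
      refine le_trans (le_of_eq ?_) this
      congr 1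
      unfold Tup.u12
      rw [e1, e2]
      field_simp
      ring
  intro cc
  -- b, b'
  set s2 := (s.filter (fun t => (t.1.a, t.2.a) = aa)).filter (fun t => (t.1.c, t.2.c) = cc)
    with hs2
  have hmem : ∀ t ∈ s2, t ∈ s ∧ (t.1.a, t.2.a) = aa ∧ (t.1.c, t.2.c) = cc := by
    intro t ht
    rw [hs2, Finset.mem_filter, Finset.mem_filter] at ht
    exact ⟨ht.1.1, ht.1.2, ht.2⟩
  have hinj : ∀ t ∈ s2, ∀ t' ∈ s2, (t.1.b, t.2.b) = (t'.1.b, t'.2.b) → t = t' := by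
    intro t ht t' ht' hb
    obtain ⟨k1, k2, k3⟩ := hmem t ht
    obtain ⟨k1', k2', k3'⟩ := hmem t' ht'
    obtain ⟨e1, e2, _⟩ := h t k1
    obtain ⟨e1', e2', _⟩ := h t' k1'
    have k4 := k2.trans k2'.symm
    have k5 := k3.trans k3'.symm
    rcases t with ⟨⟨l1, a1, c1, b1⟩, ⟨l2, a2, c2, b2⟩⟩
    rcases t' with ⟨⟨l1', a1', c1', b1'⟩, ⟨l2', a2', c2', b2'⟩⟩
    simp only [Prod.mk.injEq] at hb k4 k5 e1 e2 e1' e2' ⊢
    refine ⟨?_, ?_⟩
    · rw [e1, e1', k4.1, k5.1, hb.1]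
    · rw [e2, e2', k4.2, k5.2, hb.2]
  rw [card_of_injOn s2 (fun t => (t.1.b, t.2.b)) hinj]
  set z : ℝ := ((l 2 - l 0 : ℤ) : ℝ) with hz
  set z' : ℝ := ((l' 2 - l' 0 : ℤ) : ℝ) with hz'
  set U : ℝ := (cc.1 : ℝ) / ((l 2 - l 1 : ℤ) : ℝ) with hU
  set U' : ℝ := (cc.2 : ℝ) / ((l' 2 - l' 1 : ℤ) : ℝ) with hU'
  set V : ℝ := (aa.1 : ℝ) / ((l 1 - l 0 : ℤ) : ℝ) with hV
  have := pair_count (l 2 - l 0) (l' 2 - l' 0) h20 (4 * m ^ 2 * d3)
    (U' * aa.2 * z - U * aa.1 * z' - z * z' * V * (U' - U)) (by positivity)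
    (s2.image (fun t => (t.1.b, t.2.b))) ?_
  · calc _ ≤ _ := this
      _ = _ := by ring
  · intro p hp
    rw [Finset.mem_image] at hp
    obtain ⟨t, ht, rfl⟩ := hp
    obtain ⟨k1, k2, k3⟩ := hmem t ht
    obtain ⟨e1, e2, hR, _, _, hu⟩ := h t k1
    have hR1 := hR.2.2
    rw [e1] at hR1
    refine ⟨hR1.1, hR1.2, ?_⟩
    have := hmul 2 0 2 0 d3 _ hd3 hu
    refine le_trans (le_of_eq ?_) this
    congr 1
    have u1 : t.1.u12 = U := by
      unfold Tup.u12; rw [e1, hU, ← k3]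
    have u2 : t.2.u12 = U' := by
      unfold Tup.u12; rw [e2, hU', ← k3]
    have u3 : t.1.u01 = V := by
      unfold Tup.u01; rw [e1, hV, ← k2]
    have u4 : t.1.u02 = ((t.1.b : ℝ) + U * aa.1) / z := by
      unfold Tup.u02; rw [u1, e1, ← k2]
    have u5 : t.2.u02 = ((t.2.b : ℝ) + U' * aa.2) / z' := by
      unfold Tup.u02; rw [u2, e2, ← k2]
    rw [u1, u2, u3, u4, u5]
    field_simp
    ring

/-- divisor bound for the gcd -/
theorem gcd_le_sum (m : ℕ) (z z' : ℤ) (hz : z ≠ 0) (hm : |z| ≤ 2 * (m : ℤ)) :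
    (Int.gcd z z' : ℝ) ≤ ∑ d ∈ Finset.Icc 1 (2 * m),
      (d : ℝ) * ((if (d : ℤ) ∣ z then 1 else 0) * (if (d : ℤ) ∣ z' then 1 else 0)) := by
  have hg0 : 0 < Int.gcd z z' := Int.gcd_pos_of_ne_zero_left _ hz
  have hle : Int.gcd z z' ≤ 2 * m := by
    have h1 : (Int.gcd z z' : ℤ) ∣ |z| := (dvd_abs _ _).mpr (Int.gcd_dvd_left ..)
    have h2 := Int.le_of_dvd (abs_pos.mpr hz) h1
    have : (Int.gcd z z' : ℤ) ≤ 2 * (m : ℤ) := h2.trans hm
    exact_mod_cast this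
  have hmem : Int.gcd z z' ∈ Finset.Icc 1 (2 * m) := Finset.mem_Icc.mpr ⟨hg0, hle⟩
  have h3 := Finset.single_le_sum (f := fun d : ℕ => (d : ℝ) *
    ((if (d : ℤ) ∣ z then (1:ℝ) else 0) * (if (d : ℤ) ∣ z' then 1 else 0)))
    (fun d _ => by positivity) hmem
  refine le_trans (le_of_eq ?_) h3
  rw [if_pos (Int.gcd_dvd_left ..), if_pos (Int.gcd_dvd_right ..)]
  ring

/-- the box `[-m, m]^3` -/
noncomputable def box (m : ℕ) : Finset (Fin 3 → ℤ) :=
  Fintype.piFinset (fun _ => Finset.Icc (-(m : ℤ)) m)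

theorem mem_box {m : ℕ} {l : Fin 3 → ℤ} : l ∈ box m ↔ ∀ i, |l i| ≤ (m : ℤ) := by
  simp [box, abs_le]

theorem card_box (m : ℕ) : ((box m).card : ℝ) = (2 * m + 1) ^ 3 := by
  rw [box, Fintype.card_piFinset]
  simp only [Int.card_Icc, Finset.prod_const, Finset.card_univ, Fintype.card_fin]
  have : ((m : ℤ) + 1 - -(m : ℤ)).toNat = 2 * m + 1 := by omega
  rw [this]
  push_cast
  ring

theorem box_residue (m d : ℕ) (hm : 1 ≤ m) (hd : 0 < d) (hd2 : d ≤ 2 * m) :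
    (((box m).filter (fun l => (d : ℤ) ∣ l 2 - l 0)).card : ℝ) ≤ 36 * m ^ 3 / d := by
  classical
  have hdR : (0 : ℝ) < d := by exact_mod_cast hd
  have hmR : (1 : ℝ) ≤ m := by exact_mod_cast hm
  have hd2R : (d : ℝ) ≤ 2 * m := by exact_mod_cast hd2
  have h := card_image_mul ((box m).filter (fun l => (d : ℤ) ∣ l 2 - l 0))
    (fun l => (l 0, l 1)) ((2 * m + 1) * (2 * m + 1)) (2 * m / d + 1) (by positivity) ?_ ?_
  · refine h.trans ?_
    have h1 : 2 * (m : ℝ) / d + 1 ≤ 4 * m / d := by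
      have : 1 ≤ 2 * (m : ℝ) / d := by rw [le_div_iff₀ hdR]; linarith
      calc 2 * (m : ℝ) / d + 1 ≤ 2 * (m : ℝ) / d + 2 * m / d := by linarith
        _ = _ := by ring
    have h2 : 2 * (m : ℝ) + 1 ≤ 3 * m := by linarith
    calc (2 * (m : ℝ) + 1) * (2 * m + 1) * (2 * m / d + 1) ≤ (3 * m) * (3 * m) * (4 * m / d) := by
          gcongr
      _ = _ := by ring
  · have hsub : ((box m).filter (fun l => (d : ℤ) ∣ l 2 - l 0)).image (fun l => (l 0, l 1)) ⊆
        Finset.Icc (-(m : ℤ)) m ×ˢ Finset.Icc (-(m : ℤ)) m := by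
      intro p hp
      rw [Finset.mem_image] at hp
      obtain ⟨l, hl, rfl⟩ := hp
      have hl' := mem_box.mp (Finset.mem_filter.mp hl).1
      rw [Finset.mem_product, Finset.mem_Icc, Finset.mem_Icc]
      exact ⟨abs_le.mp (hl' 0), abs_le.mp (hl' 1)⟩
    have := Finset.card_le_card hsub
    rw [Finset.card_product, Int.card_Icc] at this
    have h5 : ((m : ℤ) + 1 - -(m : ℤ)).toNat = 2 * m + 1 := by omega
    rw [h5] at this
    exact_mod_cast this
  · intro b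
    have hinj : ∀ l ∈ ((box m).filter (fun l => (d : ℤ) ∣ l 2 - l 0)).filter
        (fun l => (l 0, l 1) = b), ∀ l' ∈ ((box m).filter (fun l => (d : ℤ) ∣ l 2 - l 0)).filter
        (fun l => (l 0, l 1) = b), l 2 = l' 2 → l = l' := by
      intro l hl l' hl' he
      have h1 := (Finset.mem_filter.mp hl).2.trans (Finset.mem_filter.mp hl').2.symm
      rw [Prod.mk.injEq] at h1
      funext i
      fin_cases i
      · exact h1.1
      · exact h1.2
      · exact he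
    rw [card_of_injOn _ (fun l => l 2) hinj]
    have := residue_card d hd m b.1 (by positivity)
      ((((box m).filter (fun l => (d : ℤ) ∣ l 2 - l 0)).filter
        (fun l => (l 0, l 1) = b)).image (fun l => l 2)) ?_
    · simpa using this
    · intro k hk
      rw [Finset.mem_image] at hk
      obtain ⟨l, hl, rfl⟩ := hk
      rw [Finset.mem_filter, Finset.mem_filter] at hl
      obtain ⟨⟨h1, h2⟩, h3⟩ := hl
      refine ⟨mem_box.mp h1 2, ?_⟩
      have : b.1 = l 0 := by rw [← h3]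
      rw [this]
      exact h2

/-- the sum of the gcd's -/
theorem gcd_sum (m : ℕ) (hm : 2 ≤ m) :
    ∑ p ∈ box m ×ˢ box m, (if p.1 2 - p.1 0 ≠ 0 then
      (Int.gcd (p.1 2 - p.1 0) (p.2 2 - p.2 0) : ℝ) else 0) ≤ 5184 * m ^ 6 * Real.log m := by
  classical
  have hmR : (2 : ℝ) ≤ m := by exact_mod_cast hm
  calc _ ≤ ∑ p ∈ box m ×ˢ box m, ∑ d ∈ Finset.Icc 1 (2 * m), (d : ℝ) *
        ((if (d : ℤ) ∣ p.1 2 - p.1 0 then 1 else 0) *
          (if (d : ℤ) ∣ p.2 2 - p.2 0 then 1 else 0)) := by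
        refine Finset.sum_le_sum fun p hp => ?_
        split_ifs with h0
        · refine gcd_le_sum m _ _ h0 ?_
          have h1 := mem_box.mp (Finset.mem_product.mp hp).1
          have h2 := abs_le.mp (h1 2)
          have h3 := abs_le.mp (h1 0)
          exact abs_le.mpr ⟨by linarith [h2.1, h3.2], by linarith [h2.2, h3.1]⟩
        · positivity
    _ = ∑ d ∈ Finset.Icc 1 (2 * m), (d : ℝ) *
        ((((box m).filter (fun l => (d : ℤ) ∣ l 2 - l 0)).card : ℝ) *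
          (((box m).filter (fun l => (d : ℤ) ∣ l 2 - l 0)).card : ℝ)) := by
        rw [Finset.sum_comm]
        refine Finset.sum_congr rfl fun d _ => ?_
        rw [← Finset.mul_sum, Finset.sum_product, Finset.card_filter]
        push_cast
        rw [Finset.sum_mul_sum]
    _ ≤ ∑ d ∈ Finset.Icc 1 (2 * m), 1296 * (m : ℝ) ^ 6 * (d : ℝ)⁻¹ := by
        refine Finset.sum_le_sum fun d hd => ?_
        rw [Finset.mem_Icc] at hd
        have h1 := box_residue m d (by omega) hd.1 hd.2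
        have hdR : (0 : ℝ) < d := by exact_mod_cast hd.1
        calc (d : ℝ) * ((((box m).filter (fun l => (d : ℤ) ∣ l 2 - l 0)).card : ℝ) *
              (((box m).filter (fun l => (d : ℤ) ∣ l 2 - l 0)).card : ℝ))
            ≤ (d : ℝ) * ((36 * m ^ 3 / d) * (36 * m ^ 3 / d)) := by gcongr
          _ = _ := by field_simp; ring
    _ = 1296 * (m : ℝ) ^ 6 * (harmonic (2 * m) : ℝ) := by
        rw [← Finset.mul_sum, harmonic_eq_sum_Icc]
        push_cast
        rfl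
    _ ≤ 1296 * (m : ℝ) ^ 6 * (4 * Real.log m) := by
        have h1 := harmonic_le_one_add_log (2 * m)
        have h2 : Real.log ((2 * m : ℕ) : ℝ) = Real.log 2 + Real.log m := by
          push_cast
          rw [Real.log_mul (by norm_num) (by positivity)]
        have h3 : Real.log 2 ≤ Real.log m := Real.log_le_log (by norm_num) hmR
        have h4 : (1:ℝ) ≤ 2 * Real.log 2 := by linarith [Real.log_two_gt_d9]
        have h5 : (harmonic (2 * m) : ℝ) ≤ 4 * Real.log m := by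
          rw [h2] at h1
          linarith
        gcongr
    _ = _ := by ring

theorem pc : T_PC := by
  classical
  intro κ hκ
  refine ⟨(8 + 2 / κ) * (8 + 2 / κ) * (5832 + 5184 / κ), ?_⟩
  intro m d1 d2 d3 s hm hd1 hd2 hd3 hk1 hk2 hk3 hs
  have hmR : (2 : ℝ) ≤ m := by exact_mod_cast hm
  have hm0 : (0 : ℝ) < m := by linarith
  set K1 : ℝ := (8 + 2 / κ) * m ^ 2 * d1 with hK1
  set K2 : ℝ := (8 + 2 / κ) * m ^ 2 * d2 with hK2
  have hK10 : 0 ≤ K1 := by positivity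
  have hK20 : 0 ≤ K2 := by positivity
  have hcard : (s.card : ℝ) ≤ ∑ p ∈ box m ×ˢ box m, K1 * (K2 * (8 * m ^ 2 * d3 +
      (if p.1 2 - p.1 0 ≠ 0 then (Int.gcd (p.1 2 - p.1 0) (p.2 2 - p.2 0) : ℝ) else 0))) := by
    have h3 := Finset.card_eq_sum_card_fiberwise (f := fun t : Tup × Tup => (t.1.l, t.2.l))
      (s := s) (t := box m ×ˢ box m) (fun t ht => by
        obtain ⟨h1, _, h2, _⟩ := hs t ht
        rw [Finset.mem_coe, Finset.mem_product]
        exact ⟨mem_box.mpr h1.2, mem_box.mpr h2.2⟩)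
    rw [h3]
    push_cast
    refine Finset.sum_le_sum fun p hp => ?_
    rcases (s.filter (fun t : Tup × Tup => (t.1.l, t.2.l) = p)).eq_empty_or_nonempty with h0 | h0
    · rw [h0, Finset.card_empty, Nat.cast_zero]
      positivity
    · obtain ⟨t0, ht0⟩ := h0
      rw [Finset.mem_filter] at ht0
      obtain ⟨o1, _, o2, _⟩ := hs t0 ht0.1
      have q1 : t0.1.l = p.1 := by rw [← ht0.2]
      have q2 : t0.2.l = p.2 := by rw [← ht0.2]
      have i1 : Function.Injective p.1 := q1 ▸ o1.1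
      have i2 : Function.Injective p.2 := q2 ▸ o2.1
      have hne : ∀ (l : Fin 3 → ℤ), Function.Injective l → ∀ i j, i ≠ j → l i - l j ≠ 0 := by
        intro l hl i j hij h
        exact hij (hl (sub_eq_zero.mp h))
      have b1 : ∀ i, |p.1 i| ≤ (m : ℤ) := mem_box.mp (Finset.mem_product.mp hp).1
      have b2 : ∀ i, |p.2 i| ≤ (m : ℤ) := mem_box.mp (Finset.mem_product.mp hp).2
      have hfib := fibre_count m p.1 p.2 (hne _ i1 1 0 (by decide)) (hne _ i1 2 1 (by decide))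
        (hne _ i1 2 0 (by decide)) (hne _ i2 1 0 (by decide)) (hne _ i2 2 1 (by decide))
        (hne _ i2 2 0 (by decide)) b1 b2 d1 d2 d3 hd1.le hd2.le hd3.le
        (s.filter (fun t : Tup × Tup => (t.1.l, t.2.l) = p)) ?_
      · refine hfib.trans ?_
        rw [if_pos (hne _ i1 2 0 (by decide))]
        have hgcd : ∀ i j, i ≠ j → (Int.gcd (p.1 i - p.1 j) (p.2 i - p.2 j) : ℝ) ≤ 2 * m := by
          intro i j hij
          have h1 : (Int.gcd (p.1 i - p.1 j) (p.2 i - p.2 j) : ℤ) ∣ |p.1 i - p.1 j| :=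
            (dvd_abs _ _).mpr (Int.gcd_dvd_left ..)
          have h2 := Int.le_of_dvd (abs_pos.mpr (hne _ i1 i j hij)) h1
          have h4 := abs_le.mp (b1 i)
          have h5 := abs_le.mp (b1 j)
          have h6 : |p.1 i - p.1 j| ≤ 2 * (m : ℤ) :=
            abs_le.mpr ⟨by linarith [h4.1, h5.2], by linarith [h4.2, h5.1]⟩
          exact_mod_cast h2.trans h6
        have g1 : 8 * (m : ℝ) ^ 2 * d1 + (Int.gcd (p.1 1 - p.1 0) (p.2 1 - p.2 0) : ℝ) ≤ K1 := by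
          have h1 := hgcd 1 0 (by decide)
          have h2 : 2 * (m : ℝ) ≤ 2 / κ * m ^ 2 * d1 := by
            rw [div_mul_eq_mul_div, div_mul_eq_mul_div, le_div_iff₀ hκ]
            nlinarith
          rw [hK1]
          nlinarith
        have g2 : 8 * (m : ℝ) ^ 2 * d2 + (Int.gcd (p.1 2 - p.1 1) (p.2 2 - p.2 1) : ℝ) ≤ K2 := by
          have h1 := hgcd 2 1 (by decide)
          have h2 : 2 * (m : ℝ) ≤ 2 / κ * m ^ 2 * d2 := by
            rw [div_mul_eq_mul_div, div_mul_eq_mul_div, le_div_iff₀ hκ]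
            nlinarith
          rw [hK2]
          nlinarith
        gcongr
      · intro t ht
        rw [Finset.mem_filter] at ht
        obtain ⟨h1, h2, h3, h4⟩ := hs t ht.1
        have q1 : t.1.l = p.1 := by rw [← ht.2]
        have q2 : t.2.l = p.2 := by rw [← ht.2]
        exact ⟨q1, q2, h2, h4⟩
  have hsum : ∑ p ∈ box m ×ˢ box m, K1 * (K2 * (8 * m ^ 2 * d3 +
      (if p.1 2 - p.1 0 ≠ 0 then (Int.gcd (p.1 2 - p.1 0) (p.2 2 - p.2 0) : ℝ) else 0))) =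
      K1 * (K2 * ((2 * m + 1) ^ 3 * (2 * m + 1) ^ 3 * (8 * m ^ 2 * d3) +
        ∑ p ∈ box m ×ˢ box m, (if p.1 2 - p.1 0 ≠ 0 then
          (Int.gcd (p.1 2 - p.1 0) (p.2 2 - p.2 0) : ℝ) else 0))) := by
    rw [← Finset.mul_sum, ← Finset.mul_sum, Finset.sum_add_distrib, Finset.sum_const,
      Finset.card_product, nsmul_eq_mul]
    push_cast
    rw [card_box]
  have hg := gcd_sum m hm
  have hlog : Real.log m ≤ d3 * (m : ℝ) ^ 2 / κ := by
    rw [le_div_iff₀ hκ]; linarith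
  have h31 : 2 * (m : ℝ) + 1 ≤ 3 * m := by linarith
  calc (s.card : ℝ) ≤ _ := hcard
    _ = _ := hsum
    _ ≤ K1 * (K2 * ((3 * m) ^ 3 * (3 * m) ^ 3 * (8 * m ^ 2 * d3) +
        5184 * m ^ 6 * (d3 * (m : ℝ) ^ 2 / κ))) := by
        have : 5184 * (m : ℝ) ^ 6 * Real.log m ≤ 5184 * m ^ 6 * (d3 * (m : ℝ) ^ 2 / κ) := by
          gcongr
        have h2 := hg.trans this
        gcongr
    _ = _ := by
        rw [hK1, hK2]
        field_simp
        ring

end Pool.Agent.H26.KF
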