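import Mathlib

/-! Elementary counting lemmas. -/

set_option autoImplicit false

namespace Pool.Agent.H26.KF

theorem interval_card (t : Finset ℤ) (α β : ℝ) (hab : α ≤ β)
    (h : ∀ k ∈ t, α ≤ (k : ℝ) ∧ (k : ℝ) ≤ β) : (t.card : ℝ) ≤ β - α + 1 := by
  have hsub : t ⊆ Finset.Icc ⌈α⌉ ⌊β⌋ := by
    intro k hk
    rw [Finset.mem_Icc]
    exact ⟨Int.ceil_le.mpr (h k hk).1, Int.le_floor.mpr (h k hk).2⟩
  have h1 := Finset.card_le_card hsub
  rw [Int.card_Icc] at h1
  have h1' : (t.card : ℝ) ≤ ((⌊β⌋ + 1 - ⌈α⌉).toNat : ℝ) := by exact_mod_cast h1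
  rcases le_total (⌊β⌋ + 1 - ⌈α⌉) 0 with h2 | h2
  · rw [Int.toNat_of_nonpos h2] at h1'
    have : ((0 : ℕ) : ℝ) = 0 := by norm_num
    linarith
  · have h3 : ((⌊β⌋ + 1 - ⌈α⌉).toNat : ℝ) = ((⌊β⌋ + 1 - ⌈α⌉ : ℤ) : ℝ) := by
      have := Int.toNat_of_nonneg h2
      exact_mod_cast this
    rw [h3] at h1'
    push_cast at h1'
    have := Int.floor_le β
    have := Int.le_ceil α
    linarith

theorem card_image_mul {α β : Type*} [DecidableEq β] (s : Finset α) (f : α → β) (N1 N2 : ℝ)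
    (hN2 : 0 ≤ N2) (h1 : ((s.image f).card : ℝ) ≤ N1)
    (h2 : ∀ b, ((s.filter (fun x => f x = b)).card : ℝ) ≤ N2) : (s.card : ℝ) ≤ N1 * N2 := by
  have h3 := Finset.card_eq_sum_card_fiberwise (f := f) (s := s) (t := s.image f)
    (fun x hx => Finset.mem_image_of_mem f hx)
  rw [h3]
  push_cast
  calc ∑ b ∈ s.image f, ((s.filter (fun x => f x = b)).card : ℝ)
      ≤ ∑ _b ∈ s.image f, N2 := Finset.sum_le_sum fun b _ => h2 b
    _ = (s.image f).card * N2 := by rw [Finset.sum_const, nsmul_eq_mul]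
    _ ≤ N1 * N2 := by gcongr

theorem card_of_injOn {α β : Type*} [DecidableEq β] (s : Finset α) (f : α → β)
    (h : ∀ x ∈ s, ∀ y ∈ s, f x = f y → x = y) : s.card = (s.image f).card := by
  rw [Finset.card_image_of_injOn]
  intro x hx y hy hxy
  exact h x hx y hy hxy

/-- pairs `(a, a')` with `0 ≤ a < |x|` and `a' x - a x'` in an interval of length `2 D` -/
theorem pair_count (x x' : ℤ) (hx : x ≠ 0) (D f : ℝ) (hD : 0 ≤ D) (t : Finset (ℤ × ℤ))
    (h : ∀ p ∈ t, 0 ≤ p.1 ∧ p.1 < |x| ∧ |((p.2 : ℝ) * x - p.1 * x') + f| ≤ D) :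
    (t.card : ℝ) ≤ 2 * D + (Int.gcd x x' : ℝ) := by
  classical
  set g : ℕ := Int.gcd x x' with hg
  have hg0 : 0 < g := Int.gcd_pos_of_ne_zero_left _ hx
  have hgR : (0 : ℝ) < g := by exact_mod_cast hg0
  obtain ⟨y, hy⟩ : (g : ℤ) ∣ x := Int.gcd_dvd_left ..
  obtain ⟨y', hy'⟩ : (g : ℤ) ∣ x' := Int.gcd_dvd_right ..
  have hy0 : y ≠ 0 := by
    rintro rfl
    rw [mul_zero] at hy
    exact hx hy
  have hcop : IsCoprime y y' := by
    have h1 : g = g * Int.gcd y y' := by
      conv_lhs => rw [hg, hy, hy', Int.gcd_mul_left, Int.natAbs_natCast]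
    have h2 : Int.gcd y y' = 1 := by
      have : g * 1 = g * Int.gcd y y' := by rw [mul_one]; exact h1
      exact (Nat.eq_of_mul_eq_mul_left hg0 this).symm
    exact Int.isCoprime_iff_gcd_eq_one.mpr h2
  have hyabs : 0 < |y| := abs_pos.mpr hy0
  -- the value, divided by `g`
  set F : ℤ × ℤ → ℤ := fun p => p.2 * y - p.1 * y' with hF
  have hFv : ∀ p : ℤ × ℤ, ((p.2 : ℝ) * x - p.1 * x') = g * (F p : ℝ) := by
    intro p
    rw [hF, hy, hy']
    push_cast
    ring
  have h1 : ((t.image F).card : ℝ) ≤ 2 * D / g + 1 := by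
    have := interval_card (t.image F) ((-D - f) / g) ((D - f) / g) (by gcongr; linarith) ?_
    · calc ((t.image F).card : ℝ) ≤ (D - f) / g - (-D - f) / g + 1 := this
        _ = 2 * D / g + 1 := by ring
    · intro k hk
      rw [Finset.mem_image] at hk
      obtain ⟨p, hp, rfl⟩ := hk
      have h3 := (h p hp).2.2
      rw [hFv, abs_le] at h3
      constructor
      · rw [div_le_iff₀ hgR]
        linarith [h3.1, mul_comm (g : ℝ) (F p : ℝ)]
      · rw [le_div_iff₀ hgR]
        linarith [h3.2, mul_comm (g : ℝ) (F p : ℝ)]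
  have h2 : ∀ b, ((t.filter (fun x => F x = b)).card : ℝ) ≤ g := by
    intro b
    have hinj : ∀ p ∈ t.filter (fun x => F x = b), ∀ q ∈ t.filter (fun x => F x = b),
        p.1 / |y| = q.1 / |y| → p = q := by
      intro p hp q hq hpq
      rw [Finset.mem_filter] at hp hq
      have he : p.2 * y - p.1 * y' = q.2 * y - q.1 * y' := hp.2.trans hq.2.symm
      have hdv : y ∣ (p.1 - q.1) := by
        have : y ∣ (p.1 - q.1) * y' := ⟨p.2 - q.2, by linarith⟩
        exact hcop.dvd_of_dvd_mul_right this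
      have hdv2 : |y| ∣ (p.1 - q.1) := (abs_dvd _ _).mpr hdv
      have hmod : p.1 % |y| = q.1 % |y| := Int.emod_eq_emod_iff_emod_sub_eq_zero.mpr
        (Int.emod_eq_zero_of_dvd hdv2)
      have e1 : p.1 = q.1 := by
        rw [← Int.emod_add_mul_ediv p.1 |y|, ← Int.emod_add_mul_ediv q.1 |y|, hmod, hpq]
      have e2 : p.2 = q.2 := by
        rw [e1] at he
        have : p.2 * y = q.2 * y := by linarith
        exact mul_right_cancel₀ hy0 this
      exact Prod.ext e1 e2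
    rw [card_of_injOn _ (fun p => p.1 / |y|) hinj]
    have hsub : (t.filter (fun x => F x = b)).image (fun p => p.1 / |y|) ⊆
        Finset.Ico (0 : ℤ) g := by
      intro k hk
      rw [Finset.mem_image] at hk
      obtain ⟨p, hp, rfl⟩ := hk
      rw [Finset.mem_filter] at hp
      obtain ⟨h3, h4, _⟩ := h p hp.1
      rw [Finset.mem_Ico]
      refine ⟨Int.ediv_nonneg h3 hyabs.le, ?_⟩
      apply Int.ediv_lt_of_lt_mul hyabs
      rw [hy, abs_mul, Nat.abs_cast] at h4
      exact h4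
    have := Finset.card_le_card hsub
    rw [Int.card_Ico] at this
    have h5 : ((g : ℤ) - 0).toNat = g := by simp
    rw [h5] at this
    exact_mod_cast this
  have := card_image_mul t F (2 * D / g + 1) g hgR.le h1 h2
  calc (t.card : ℝ) ≤ (2 * D / g + 1) * g := this
    _ = 2 * D + g := by field_simp

/-- residue classes -/
theorem residue_card (d : ℕ) (hd : 0 < d) (m i : ℤ) (hm : 0 ≤ m) (t : Finset ℤ)
    (h : ∀ k ∈ t, |k| ≤ m ∧ (d : ℤ) ∣ k - i) : (t.card : ℝ) ≤ 2 * m / d + 1 := by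
  classical
  have hdR : (0 : ℝ) < d := by exact_mod_cast hd
  have hdZ : (d : ℤ) ≠ 0 := by exact_mod_cast hd.ne'
  have hinj : ∀ p ∈ t, ∀ q ∈ t, (p - i) / (d : ℤ) = (q - i) / (d : ℤ) → p = q := by
    intro p hp q hq hpq
    have h1 := Int.ediv_mul_cancel (h p hp).2
    have h2 := Int.ediv_mul_cancel (h q hq).2
    rw [hpq] at h1
    linarith
  rw [card_of_injOn t (fun p => (p - i) / (d : ℤ)) hinj]
  have hmR : (0 : ℝ) ≤ m := by exact_mod_cast hm
  have := interval_card (t.image (fun p => (p - i) / (d : ℤ))) ((-m - i) / d) ((m - i) / d)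
    (by gcongr; linarith) ?_
  · refine this.trans (le_of_eq ?_)
    ring
  · intro k hk
    rw [Finset.mem_image] at hk
    obtain ⟨p, hp, rfl⟩ := hk
    have h1 := Int.ediv_mul_cancel (h p hp).2
    have h1' : (((p - i) / (d : ℤ) : ℤ) : ℝ) * d = p - i := by
      have : ((((p - i) / (d : ℤ)) * (d : ℤ) : ℤ) : ℝ) = ((p - i : ℤ) : ℝ) := by rw [h1]
      push_cast at this
      exact this
    have h2 := abs_le.mp (h p hp).1
    have h3 : -(m : ℝ) ≤ p := by exact_mod_cast h2.1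
    have h4 : (p : ℝ) ≤ m := by exact_mod_cast h2.2
    constructor
    · rw [div_le_iff₀ hdR, h1']
      linarith
    · rw [le_div_iff₀ hdR, h1']
      linarith

end Pool.Agent.H26.KF
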