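import Pool.Agent.H27.KF.FRM
import Pool.Agent.H27.KF.FLG
import Pool.Agent.H27.KF.EV
import Pool.Agent.H26.KF.Count

/-! Module MC, part a: frames with given flag and given triangular form. -/

set_option autoImplicit false

namespace Pool.Agent.H26.KF

open _root_.KF

/-- real dot product -/
def dt (x y : Fin 3 → ℝ) : ℝ := x 0 * y 0 + x 1 * y 1 + x 2 * y 2

/-- real cross product -/
def cr (x y : Fin 3 → ℝ) : Fin 3 → ℝ :=
  ![x 1 * y 2 - x 2 * y 1, x 2 * y 0 - x 0 * y 2, x 0 * y 1 - x 1 * y 0]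

theorem cr0 (x y : Fin 3 → ℝ) : cr x y 0 = x 1 * y 2 - x 2 * y 1 := rfl
theorem cr1 (x y : Fin 3 → ℝ) : cr x y 1 = x 2 * y 0 - x 0 * y 2 := rfl
theorem cr2 (x y : Fin 3 → ℝ) : cr x y 2 = x 0 * y 1 - x 1 * y 0 := rfl

/-- Lagrange's identity, two vectors -/
theorem lagrange2 (p q : Fin 3 → ℝ) (x a : ℝ) :
    dt p p * dt (x • q + a • p) (x • q + a • p) =
      (x * dt q p + a * dt p p) ^ 2 + x ^ 2 * dt (cr p q) (cr p q) := by
  simp only [dt, cr0, cr1, cr2, Pi.add_apply, Pi.smul_apply, smul_eq_mul]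
  ring

/-- Expansion in an orthogonal basis -/
theorem lagrange3 (p w y : Fin 3 → ℝ) (h : dt p w = 0) :
    dt p p * dt w w * dt y y =
      dt y (cr w p) ^ 2 + dt p p * dt y w ^ 2 + dt w w * dt y p ^ 2 := by
  have h' : p 0 * w 0 + p 1 * w 1 + p 2 * w 2 = 0 := h
  simp only [dt, cr0, cr1, cr2]
  linear_combination ((y 0 * y 0 + y 1 * y 1 + y 2 * y 2) * (p 0 * w 0 + p 1 * w 1 + p 2 * w 2) -
    2 * (y 0 * w 0 + y 1 * w 1 + y 2 * w 2) * (y 0 * p 0 + y 1 * p 1 + y 2 * p 2)) * h'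

theorem real_key (p q r : Fin 3 → ℝ) (hdet : dt (cr p q) r = 1) (A B : ℝ) (hA : 0 < A)
    (hB : 0 < B) (hA2 : A ^ 2 = dt p p) (hB2 : B ^ 2 = dt (cr p q) (cr p q)) (x y z a c b : ℝ)
    (hx : 0 < x) (hy : 0 < y) (hz : 0 < z)
    (h1 : |x * dt q p + a * A ^ 2| ≤ x * B)
    (h2 : |y * dt r (cr (cr p q) p) + c * B ^ 2| ≤ y * A)
    (h3 : |y * z * dt r p + c * z * dt q p + (y * b + c * a) * A ^ 2| ≤ y * z * A / B) :
    A ^ 2 * dt (x • q + a • p) (x • q + a • p) *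
      dt ((y * z) • r + (c * z) • q + (y * b + c * a) • p)
        ((y * z) • r + (c * z) • q + (y * b + c * a) • p) ≤ 6 * (x * y * z) ^ 2 := by
  set w := cr p q with hw
  set Y : Fin 3 → ℝ := (y * z) • r + (c * z) • q + (y * b + c * a) • p with hY
  have e1 := lagrange2 p q x a
  rw [← hw, ← hA2, ← hB2] at e1
  have hpw : dt p w = 0 := by
    rw [hw]; simp only [dt, cr0, cr1, cr2]; ring
  have e2 := lagrange3 p w Y hpw
  rw [← hA2, ← hB2] at e2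
  have e3 : dt Y w = y * z := by
    have : dt Y w = y * z * dt w r := by
      rw [hY, hw]
      simp only [dt, cr0, cr1, cr2, Pi.add_apply, Pi.smul_apply, smul_eq_mul]
      ring
    rw [this, hdet, mul_one]
  have e4 : dt Y p = y * z * dt r p + c * z * dt q p + (y * b + c * a) * A ^ 2 := by
    rw [hA2, hY]
    simp only [dt, Pi.add_apply, Pi.smul_apply, smul_eq_mul]
    ring
  have e5 : dt Y (cr w p) = z * (y * dt r (cr w p) + c * B ^ 2) := by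
    rw [hB2, hY, hw]
    simp only [dt, cr0, cr1, cr2, Pi.add_apply, Pi.smul_apply, smul_eq_mul]
    ring
  have s1 : (x * dt q p + a * A ^ 2) ^ 2 ≤ (x * B) ^ 2 := sq_le_sq' (abs_le.mp h1).1 (abs_le.mp h1).2
  have s2 : (y * dt r (cr w p) + c * B ^ 2) ^ 2 ≤ (y * A) ^ 2 :=
    sq_le_sq' (abs_le.mp h2).1 (abs_le.mp h2).2
  have s3 : (dt Y p) ^ 2 ≤ (y * z * A / B) ^ 2 := by
    rw [e4]; exact sq_le_sq' (abs_le.mp h3).1 (abs_le.mp h3).2
  have n1 : A ^ 2 * dt (x • q + a • p) (x • q + a • p) ≤ 2 * x ^ 2 * B ^ 2 := by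
    rw [e1]; nlinarith
  have n2 : A ^ 2 * (B ^ 2 * dt Y Y) ≤ A ^ 2 * (3 * (y * z) ^ 2) := by
    have k1 : B ^ 2 * (y * z * A / B) ^ 2 = (y * z * A) ^ 2 := by
      rw [div_pow]; field_simp
    calc A ^ 2 * (B ^ 2 * dt Y Y) = A ^ 2 * B ^ 2 * dt Y Y := by ring
      _ = dt Y (cr w p) ^ 2 + A ^ 2 * dt Y w ^ 2 + B ^ 2 * dt Y p ^ 2 := e2
      _ ≤ z ^ 2 * (y * A) ^ 2 + A ^ 2 * (y * z) ^ 2 + B ^ 2 * (y * z * A / B) ^ 2 := by
          rw [e3, e5, mul_pow]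
          gcongr
      _ = _ := by rw [k1]; ring
  have n3 : B ^ 2 * dt Y Y ≤ 3 * (y * z) ^ 2 := le_of_mul_le_mul_left n2 (by positivity)
  have hYY : 0 ≤ dt Y Y := by
    simp only [dt]; nlinarith [mul_self_nonneg (Y 0), mul_self_nonneg (Y 1), mul_self_nonneg (Y 2)]
  have hB0 : 0 < B ^ 2 := by positivity
  calc A ^ 2 * dt (x • q + a • p) (x • q + a • p) * dt Y Y
      ≤ 2 * x ^ 2 * B ^ 2 * dt Y Y := by gcongr
    _ = 2 * x ^ 2 * (B ^ 2 * dt Y Y) := by ring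
    _ ≤ 2 * x ^ 2 * (3 * (y * z) ^ 2) := by gcongr
    _ = _ := by ring

/-- frames of a matrix with given nonzero integer eigenvectors -/
theorem exists_frame (M : MZ) (l : Fin 3 → ℤ) (hl : Function.Injective l) (Y : Fin 3 → VZ)
    (hY : ∀ i, Y i ≠ 0) (hM : ∀ i, M.mulVec (Y i) = l i • Y i) :
    ∃ φ : Frame, φ.M = M ∧ φ.ev = l ∧ ∀ i, 0 < gcd3 (Y i) ∧ Y i = gcd3 (Y i) • φ.v i := by
  refine ⟨⟨M, l, fun i => (fun j => Y i j / gcd3 (Y i)), hl, ?_, fun i => (KFL.exists_prim (hY i)).2⟩,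
    rfl, rfl, fun i => ⟨KFL.gcd3_pos (hY i), (KFL.exists_prim (hY i)).1.symm⟩⟩
  intro i
  have h1 := (KFL.exists_prim (hY i)).1
  have h2 := hM i
  have hg := KFL.gcd3_pos (hY i)
  rw [← h1, Matrix.mulVec_smul, smul_comm] at h2
  funext j
  have h3 := congrFun h2 j
  simp only [Pi.smul_apply, smul_eq_mul] at h3 ⊢
  exact mul_left_cancel₀ hg.ne' h3

theorem tri_eig (l : Fin 3 → ℤ) (a c b : ℤ) :
    (tri l a c b).mulVec ![1, 0, 0] = l 0 • ![1, 0, 0] ∧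
    (tri l a c b).mulVec ![a, l 1 - l 0, 0] = l 1 • ![a, l 1 - l 0, 0] ∧
    (tri l a c b).mulVec ![(l 2 - l 1) * b + c * a, c * (l 2 - l 0), (l 2 - l 1) * (l 2 - l 0)] =
      l 2 • ![(l 2 - l 1) * b + c * a, c * (l 2 - l 0), (l 2 - l 1) * (l 2 - l 0)] := by
  refine ⟨?_, ?_, ?_⟩
  · funext i
    fin_cases i <;> simp [tri, Matrix.mulVec, dotProduct, Fin.sum_univ_three]
  · funext i
    fin_cases i <;> simp [tri, Matrix.mulVec, dotProduct, Fin.sum_univ_three] <;> ring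
  · funext i
    fin_cases i <;> simp [tri, Matrix.mulVec, dotProduct, Fin.sum_univ_three] <;> ring

end Pool.Agent.H26.KF
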