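import Pool.Agent.H26.KF.MCa

/-! Module MC, part b: the frame attached to a flag, eigenvalues and a triangular matrix. -/

set_option autoImplicit false

namespace Pool.Agent.H26.KF

open _root_.KF

theorem prim_unique {x y : VZ} (hx : Prim x) (hy : Prim y) {a b : ℤ} (ha : 0 < a) (hb : 0 < b)
    (h : a • x = b • y) : x = y := by
  have key : ∀ {x y : VZ} (_ : Prim y) {a b : ℤ} (_ : a • x = b • y), a ∣ b := by
    intro x y hy a b h
    obtain ⟨u, hu⟩ := KFL.prim_bezout hy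
    have h1 : ∀ i, a ∣ b * y i := fun i => ⟨x i, by
      have := congrFun h i
      simp only [Pi.smul_apply, smul_eq_mul] at this
      exact this.symm⟩
    have h2 : b = u 0 * (b * y 0) + u 1 * (b * y 1) + u 2 * (b * y 2) := by
      have : dotZ u y = u 0 * y 0 + u 1 * y 1 + u 2 * y 2 := rfl
      rw [this] at hu
      linear_combination (-b) * hu
    rw [h2]
    exact ((h1 0).mul_left _).add ((h1 1).mul_left _) |>.add ((h1 2).mul_left _)
  have hab : a = b := Int.dvd_antisymm ha.le hb.le (key hy h) (key hx h.symm)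
  subst hab
  funext i
  have := congrFun h i
  simp only [Pi.smul_apply, smul_eq_mul] at this
  exact mul_left_cancel₀ ha.ne' this

/-- columns of the inverse -/
def bcol (γ : GZ) (i : Fin 3) : VZ := fun j => ((γ⁻¹ : GZ) : MZ) j i

theorem mulZ_inv_cons (γ : GZ) (s t u : ℤ) :
    mulZ γ⁻¹ ![s, t, u] = s • bcol γ 0 + t • bcol γ 1 + u • bcol γ 2 := by
  funext j
  simp only [mulZ, Matrix.mulVec, dotProduct, Fin.sum_univ_three, bcol, Pi.add_apply,
    Pi.smul_apply, smul_eq_mul, Matrix.cons_val_zero, Matrix.cons_val_one, Matrix.cons_val]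
  ring

theorem cross_bcol (γ : GZ) (hdet : Matrix.det (γ : MZ) = 1) :
    crossZ (bcol γ 0) (bcol γ 1) = (fun j => (γ : MZ) 2 j) ∧
      dotZ (crossZ (bcol γ 0) (bcol γ 1)) (bcol γ 2) = 1 := by
  set B : MZ := ((γ⁻¹ : GZ) : MZ) with hB
  have hBG : B * (γ : MZ) = 1 := by rw [hB, ← Units.val_mul, inv_mul_cancel, Units.val_one]
  have hdB : B.det = 1 := by
    have := congrArg Matrix.det hBG
    rw [Matrix.det_mul, hdet, mul_one, Matrix.det_one] at this
    exact this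
  have hadj : (γ : MZ) = B.adjugate := by
    have h1 : B.adjugate * (B * (γ : MZ)) = (γ : MZ) := by
      rw [← Matrix.mul_assoc, Matrix.adjugate_mul, hdB, one_smul, Matrix.one_mul]
    rw [hBG, Matrix.mul_one] at h1
    exact h1.symm
  constructor
  · rw [hadj, Matrix.adjugate_fin_three]
    funext j
    fin_cases j <;> simp [crossZ, bcol, ← hB] <;> ring
  · rw [← hdB, Matrix.det_fin_three]
    simp only [crossZ, bcol, dotZ, ← hB, Matrix.cons_val_zero, Matrix.cons_val_one,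
      Matrix.cons_val]
    ring

theorem nz_sq_dt (x : VZ) : nz x ^ 2 = dt (cst x) (cst x) := by
  rw [KFL.nz_sq, dt]
  simp only [cst]
  ring

theorem cr_cst (x y : VZ) : cr (cst x) (cst y) = cst (crossZ x y) := by
  funext j
  fin_cases j <;> simp [cr, cst, crossZ]

theorem dt_cst (x y : VZ) : dt (cst x) (cst y) = ((dotZ x y : ℤ) : ℝ) := by
  simp [dt, cst, dotZ]

theorem frame_of (γ : GZ) (v w : VZ) (hw' : Prim w) (hv : mulZ γ v = ![1, 0, 0])
    (hw : (fun j => (γ : MZ) 2 j) = w) (hdet : Matrix.det (γ : MZ) = 1) (l : Fin 3 → ℤ)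
    (h10 : 0 < l 1 - l 0) (h21 : 0 < l 2 - l 1) (a c b : ℤ)
    (h1 : |((l 1 - l 0 : ℤ) : ℝ) * dt (cst (bcol γ 1)) (cst v) + a * nz v ^ 2| ≤
      ((l 1 - l 0 : ℤ) : ℝ) * nz w)
    (h2 : |((l 2 - l 1 : ℤ) : ℝ) * dt (cst (bcol γ 2)) (cr (cst w) (cst v)) + c * nz w ^ 2| ≤
      ((l 2 - l 1 : ℤ) : ℝ) * nz v)
    (h3 : |((l 2 - l 1 : ℤ) : ℝ) * ((l 2 - l 0 : ℤ) : ℝ) * dt (cst (bcol γ 2)) (cst v) +
      c * ((l 2 - l 0 : ℤ) : ℝ) * dt (cst (bcol γ 1)) (cst v) +
      (((l 2 - l 1 : ℤ) : ℝ) * b + c * a) * nz v ^ 2| ≤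
      ((l 2 - l 1 : ℤ) : ℝ) * ((l 2 - l 0 : ℤ) : ℝ) * nz v / nz w) :
    ∃ φ : Frame, φ.ev = l ∧ φ.v 0 = v ∧ φ.w = w ∧ conjZ γ φ.M = tri l a c b ∧
      φ.Ang (1 / 3) := by
  set x : ℤ := l 1 - l 0 with hx
  set y : ℤ := l 2 - l 1 with hy
  set z : ℤ := l 2 - l 0 with hz
  have hz0 : 0 < z := by omega
  have hcc : (c : ℤ) * (l 2 - l 0) = c * z := by rw [hz]
  set u : Fin 3 → VZ := ![![1, 0, 0], ![a, x, 0], ![y * b + c * a, c * z, y * z]] with hu
  have hinj : Function.Injective l := by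
    intro i j hij
    fin_cases i <;> fin_cases j <;> simp_all
  have hu0 : ∀ i, u i ≠ 0 := by
    intro i h
    fin_cases i
    · have := congrFun h 0
      simp [hu] at this
    · have := congrFun h 1
      simp [hu] at this
      omega
    · have := congrFun h 2
      simp [hu] at this
      omega
  have hue : ∀ i, (tri l a c b).mulVec (u i) = l i • u i := by
    intro i
    obtain ⟨t1, t2, t3⟩ := tri_eig l a c b
    fin_cases i
    · exact t1
    · exact t2
    · exact t3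
  obtain ⟨φT, hT1, hT2, hT3⟩ := exists_frame (tri l a c b) l hinj u hu0 hue
  set φ := Frame.act γ⁻¹ φT with hφ
  have hY : ∀ i, gcd3 (u i) • φ.v i = mulZ γ⁻¹ (u i) := by
    intro i
    have : mulZ γ⁻¹ (u i) = gcd3 (u i) • mulZ γ⁻¹ (φT.v i) := by
      conv_lhs => rw [(hT3 i).2]
      rw [mulZ_smul]
    rw [this]
    rfl
  have hg0 : gcd3 (u 0) = 1 := by
    simp [hu, gcd3]
  have hv0 : mulZ γ⁻¹ (u 0) = v := by
    have : u 0 = mulZ γ v := by rw [hv]; rfl
    rw [this, ← mulZ_mul, inv_mul_cancel, mulZ_one]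
  have hφ0 : φ.v 0 = v := by
    have := hY 0
    rw [hg0, one_smul, hv0] at this
    exact this
  have hb0 : bcol γ 0 = v := by
    have h4 := mulZ_inv_cons γ 1 0 0
    rw [one_smul, zero_smul, zero_smul, add_zero, add_zero] at h4
    rw [← h4, ← hv0]
    rfl
  obtain ⟨hcr, hdt⟩ := cross_bcol γ hdet
  rw [hw, hb0] at hcr
  rw [hb0, hcr] at hdt
  set q := bcol γ 1 with hq
  set r := bcol γ 2 with hr
  have hY1 : gcd3 (u 1) • φ.v 1 = x • q + a • v := by
    rw [hY 1]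
    have h4 := mulZ_inv_cons γ a x 0
    rw [zero_smul, add_zero, hb0] at h4
    rw [add_comm, ← h4]
    rfl
  have hY2 : gcd3 (u 2) • φ.v 2 = (y * z) • r + (c * z) • q + (y * b + c * a) • v := by
    rw [hY 2]
    have h4 := mulZ_inv_cons γ (y * b + c * a) (c * z) (y * z)
    rw [hb0] at h4
    have h5 : (y * z) • r + (c * z) • q + (y * b + c * a) • v =
        (y * b + c * a) • v + (c * z) • q + (y * z) • r := by abel
    rw [h5, ← h4]
    rfl
  have hg1 := (hT3 1).1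
  have hg2 := (hT3 2).1
  set g1 := gcd3 (u 1) with hg1d
  set g2 := gcd3 (u 2) with hg2d
  -- the normal vector
  have hc1 : g1 • crossZ (φ.v 0) (φ.v 1) = x • w := by
    have h4 : g1 • crossZ (φ.v 0) (φ.v 1) = crossZ (φ.v 0) (g1 • φ.v 1) := by
      funext j
      fin_cases j <;> simp [crossZ] <;> ring
    rw [h4, hY1, hφ0, ← hcr]
    funext j
    fin_cases j <;> simp [crossZ] <;> ring
  obtain ⟨w1, _, _, w4, w5, _, _⟩ := KFL.W0 φ
  have hwφ : φ.w = w := by
    rw [w5, smul_smul] at hc1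
    exact prim_unique w1 hw' (mul_pos hg1 w4) h10 hc1
  refine ⟨φ, ?_, hφ0, hwφ, ?_, ?_⟩
  · rw [hφ]
    exact hT2
  · have : φ.M = conjZ γ⁻¹ φT.M := rfl
    rw [this, ← conjZ_mul, mul_inv_cancel, conjZ_one, hT1]
  · -- the angle condition
    have hv_ne : v ≠ 0 := by rw [← hφ0]; exact φ.v_ne 0
    have hw_ne : w ≠ 0 := by
      rintro rfl
      have := hw' 2 (by intro j; simp)
      rw [Int.isUnit_iff] at this
      omega
    have hA := KFL.nz_pos hv_ne
    have hB := KFL.nz_pos hw_ne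
    have xR : (0 : ℝ) < x := by exact_mod_cast h10
    have yR : (0 : ℝ) < y := by exact_mod_cast h21
    have zR : (0 : ℝ) < z := by exact_mod_cast hz0
    have g1R : (0 : ℝ) < g1 := by exact_mod_cast hg1
    have g2R : (0 : ℝ) < g2 := by exact_mod_cast hg2
    have hcrw : cr (cst v) (cst q) = cst w := by rw [cr_cst, hcr]
    have key := real_key (cst v) (cst q) (cst r) (by rw [hcrw, dt_cst, hdt]; simp) (nz v) (nz w)
      hA hB (nz_sq_dt v) (by rw [hcrw, nz_sq_dt]) x y z a c b xR yR zR h1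
      (by rw [hcrw]; exact h2) h3
    have c1 : (x : ℝ) • cst q + (a : ℝ) • cst v = cst (g1 • φ.v 1) := by
      rw [hY1]; funext j; simp [cst]
    have c2 : ((y : ℝ) * z) • cst r + ((c : ℝ) * z) • cst q + ((y : ℝ) * b + c * a) • cst v =
        cst (g2 • φ.v 2) := by
      rw [hY2]; funext j; simp [cst]
    rw [c1, c2, ← nz_sq_dt, ← nz_sq_dt, KFL.nz_smul, KFL.nz_smul, abs_of_pos g1R,
      abs_of_pos g2R] at key
    have hn1 := KFL.nz_nonneg (φ.v 1)
    have hn2 := KFL.nz_nonneg (φ.v 2)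
    have key2 : (nz v * (g1 * nz (φ.v 1)) * (g2 * nz (φ.v 2))) ^ 2 ≤ (3 * (x * y * z : ℝ)) ^ 2 := by
      calc (nz v * (g1 * nz (φ.v 1)) * (g2 * nz (φ.v 2))) ^ 2
          = nz v ^ 2 * (g1 * nz (φ.v 1)) ^ 2 * (g2 * nz (φ.v 2)) ^ 2 := by ring
        _ ≤ 6 * (x * y * z : ℝ) ^ 2 := key
        _ ≤ _ := by nlinarith [sq_nonneg ((x : ℝ) * y * z)]
    have key3 : nz v * (g1 * nz (φ.v 1)) * (g2 * nz (φ.v 2)) ≤ 3 * (x * y * z : ℝ) :=
      le_of_sq_le_sq key2 (by positivity)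
    -- the determinant
    have hd : (g1 * g2) * dotZ (crossZ (φ.v 0) (φ.v 1)) (φ.v 2) = x * (y * z) := by
      have e1 : (g1 * g2) * dotZ (crossZ (φ.v 0) (φ.v 1)) (φ.v 2) =
          dotZ (g1 • crossZ (φ.v 0) (φ.v 1)) (g2 • φ.v 2) := by
        simp only [dotZ, Pi.smul_apply, smul_eq_mul]; ring
      have e2 : dotZ w q = 0 := by rw [← hcr]; exact KFL.dotZ_cross_right _ _
      have e3 : dotZ w v = 0 := by rw [← hcr]; exact KFL.dotZ_cross_left _ _
      rw [e1, hc1, hY2]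
      have e4 : dotZ (x • w) ((y * z) • r + (c * z) • q + (y * b + c * a) • v) =
          x * ((y * z) * dotZ w r + (c * z) * dotZ w q + (y * b + c * a) * dotZ w v) := by
        simp only [dotZ, Pi.smul_apply, Pi.add_apply, smul_eq_mul]; ring
      rw [e4, hdt, e2, e3]
      ring
    have hdR : ((g1 : ℝ) * g2) * ((dotZ (crossZ (φ.v 0) (φ.v 1)) (φ.v 2) : ℤ) : ℝ) =
        x * (y * z) := by exact_mod_cast hd
    unfold Frame.Ang
    rw [KFL.det_Rm]
    have hnv : nz (φ.v 0) = nz v := by rw [hφ0]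
    rw [hnv]
    set D : ℝ := ((dotZ (crossZ (φ.v 0) (φ.v 1)) (φ.v 2) : ℤ) : ℝ) with hD
    refine le_trans ?_ (le_abs_self D)
    have hgg : (0 : ℝ) < g1 * g2 := mul_pos g1R g2R
    refine le_of_mul_le_mul_left ?_ hgg
    calc ((g1 : ℝ) * g2) * (1 / 3 * (nz v * nz (φ.v 1) * nz (φ.v 2)))
        = 1 / 3 * (nz v * (g1 * nz (φ.v 1)) * (g2 * nz (φ.v 2))) := by ring
      _ ≤ 1 / 3 * (3 * (x * y * z : ℝ)) := by gcongr
      _ = x * (y * z) := by ring
      _ = _ := hdR.symm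

end Pool.Agent.H26.KF
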